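import Mathlib
import Pool.Agent.Y785.SM5.Neg

set_option autoImplicit false

open Cardinal Ordinal

namespace Pool.Agent.Results.MP_5fddfa_lc.ExactThreshold

universe u

/-- `f` is a set mapping on `S`: no point belongs to its own image. -/
def IsSetMapping {S : Type u} (f : S → Set S) : Prop := ∀ x : S, x ∉ f x

/-- `f` has order `κ`: every image has size less than `κ`. -/
def HasOrder {S : Type u} (f : S → Set S) (κ : Cardinal.{u}) : Prop := ∀ x : S, #(f x) < κ

/-- `F` is free for `f`: it does not meet the union of the images of its points. -/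
def IsFree {S : Type u} (f : S → Set S) (F : Set S) : Prop := F ∩ (⋃ x ∈ F, f x) = ∅

/-- The relation `(κ, η, θ) → ι`: every set mapping `f` of order `κ` on a set `S` of size `κ` such
that the images of any `η` points have fewer than `θ` common elements has a free set of size
`ι`. -/
def Arrow (κ η θ ι : Cardinal.{u}) : Prop :=
  ∀ (S : Type u) (f : S → Set S), #S = κ → IsSetMapping f → HasOrder f κ →
    (∀ X : Set S, #X = η → #(⋂ x ∈ X, f x : Set S) < θ) → ∃ F : Set S, #F = ι ∧ IsFree f F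

/-- The generalized continuum hypothesis. -/
def GCH : Prop := ∀ c : Cardinal.{u}, ℵ₀ ≤ c → (2 : Cardinal.{u}) ^ c = Order.succ c

/-- a larger `η` gives a weaker hypothesis on the set mapping -/
theorem inter_lt {S : Type u} {f : S → Set S} {η l θ : Cardinal.{u}} (hη : η ≤ l)
    (h : ∀ X : Set S, #X = η → #(⋂ x ∈ X, f x : Set S) < θ) (X : Set S) (hX : #X = l) :
    #(⋂ x ∈ X, f x : Set S) < θ := by
  obtain ⟨Y, hYX, hY⟩ := (le_mk_iff_exists_subset).1 (hη.trans hX.ge)
  refine lt_of_le_of_lt (mk_le_mk_of_subset ?_) (h Y hY)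
  exact Set.biInter_subset_biInter_left hYX

/-- the positive part -/
theorem pos {l : Cardinal.{u}} (hl : l.IsStrongLimit) (hl1 : ℵ₀ < l) (hcof : l.ord.cof = ℵ₀)
    {η ι : Cardinal.{u}} (hη : η ≤ l) (hι : ι ≤ l) : Arrow (Order.succ l) η l ι := by
  intro S f hS hself hord hH
  -- a cofinal sequence of smaller cardinals
  have hlim : ∀ x < l, Order.succ x < l := fun x hx =>
    (Order.succ_le_of_lt (cantor x)).trans_lt (hl.isStrongPrelimit hx)
  obtain ⟨s, hs, hsc⟩ := Order.exists_cof_eq l.ord.ToType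
  rw [Ordinal.cof_toType, hcof] at hsc
  have hcs : Countable s := by
    rw [← Cardinal.mk_le_aleph0_iff]
    exact hsc.le
  have hsne : Nonempty s := by
    rw [← mk_ne_zero_iff, hsc]
    exact aleph0_ne_zero
  obtain ⟨ρ, hρ⟩ := exists_surjective_nat s
  have hd : ∀ n, max ℵ₀ #(Set.Iio (ρ n).1) < l := fun n =>
    max_lt hl1 (Cardinal.mk_Iio_toType_ord_lt _)
  let c : ℕ → {x : Cardinal.{u} // x < l} := fun n =>
    Nat.rec (motive := fun _ => {x : Cardinal.{u} // x < l}) ⟨_, hd 0⟩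
      (fun n x => ⟨max (Order.succ x.1) (max ℵ₀ #(Set.Iio (ρ (n + 1)).1)),
        max_lt (hlim x.1 x.2) (hd (n + 1))⟩) n
  have hc1 : ∀ n, (c (n + 1)).1 =
      max (Order.succ (c n).1) (max ℵ₀ #(Set.Iio (ρ (n + 1)).1)) := fun n => rfl
  have hcd : ∀ n, max ℵ₀ #(Set.Iio (ρ n).1) ≤ (c n).1 := by
    intro n
    cases n with
    | zero => exact le_rfl
    | succ n =>
      rw [hc1]
      exact le_max_right _ _
  obtain ⟨F, hF, hfree⟩ := Pool.Agent.Helper292.SetMap.free_of_size l (fun n => (c n).1)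
    (fun n => (le_max_left _ _).trans (hcd n))
    (strictMono_nat_of_lt_succ fun n => by
      rw [hc1]
      exact (Order.lt_succ _).trans_le (le_max_left _ _))
    (fun n => (c n).2) (by
      intro x hx
      have h1 : x.ord < Ordinal.type ((· < ·) : l.ord.ToType → l.ord.ToType → Prop) := by
        rw [Ordinal.type_toType]
        exact Cardinal.ord_lt_ord.2 hx
      obtain ⟨t, ht⟩ := Ordinal.typein_surj (· < ·) h1
      obtain ⟨y, hy, hty⟩ := hs t
      obtain ⟨n, hn⟩ := hρ ⟨y, hy⟩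
      refine ⟨n, le_trans ?_ ((le_max_right _ _).trans (hcd n))⟩
      have h2 : #(Set.Iio t) = x := by
        have h3 := congrArg Ordinal.card ht
        rw [card_ord] at h3
        exact h3
      rw [← h2]
      refine mk_le_mk_of_subset fun z hz => ?_
      rw [hn]
      exact lt_of_lt_of_le hz hty)
    (fun x hx => hl.isStrongPrelimit hx) hS f hself
    (fun x => Order.lt_succ_iff.1 (hord x)) (inter_lt hη hH)
  obtain ⟨F', hF', hF'c⟩ := (le_mk_iff_exists_subset).1 (hι.trans hF.ge)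
  refine ⟨F', hF'c, ?_⟩
  unfold IsFree
  rw [Set.eq_empty_iff_forall_notMem]
  rintro x ⟨hx, hx'⟩
  simp only [Set.mem_iUnion] at hx'
  obtain ⟨y, hy, hxy⟩ := hx'
  exact hfree x (hF' hx) y (hF' hy) hxy

/-- the negative part -/
theorem neg {l : Cardinal.{u}} (hl : (2 : Cardinal.{u}) ^ (ℵ₀ : Cardinal.{u}) < l)
    (h2l : (2 : Cardinal.{u}) ^ l = Order.succ l) {η ι : Cardinal.{u}}
    (hη : (2 : Cardinal.{u}) ^ (ℵ₀ : Cardinal.{u}) < η) (hι : l < ι) :
    ¬ Arrow (Order.succ l) η l ι := by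
  intro h
  obtain ⟨K, _, f, hK, h1, h2, h3, h4⟩ := Pool.Agent.Y785.SM5.exists_map l hl h2l
  obtain ⟨F, hF, hfree⟩ := h K f hK (fun x hx => lt_irrefl x (h1 x hx))
    (fun x => Order.lt_succ_of_le (h2 x)) (fun X hX => h3 X (by rw [hX]; exact hη))
  obtain ⟨x, hx, y, hy, hxy⟩ := h4 F (by rw [hF]; exact Order.succ_le_of_lt hι)
  unfold IsFree at hfree
  rw [Set.eq_empty_iff_forall_notMem] at hfree
  exact hfree x ⟨hx, Set.mem_biUnion hy hxy⟩

/-- **The exact threshold.**
(1) Let `l` be an uncountable strong limit cardinal of countable cofinality. Then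
`(l⁺, η, l) → ι` for all cardinals `η ≤ l` and `ι ≤ l`.
(2) Let `l` be any cardinal greater than the continuum with `2 ^ l = l⁺`. Then
`(l⁺, η, l) → ι` fails for all `η` greater than the continuum and all `ι > l`.
(3) Hence, if `l` is a strong limit cardinal of countable cofinality with `2 ^ l = l⁺`, then for
every cardinal `η` greater than the continuum and at most `l` and every cardinal `ι` the relation
`(l⁺, η, l) → ι` holds if and only if `ι ≤ l`.
(4) In particular under GCH, for every `η` with `ℵ₂ ≤ η ≤ ℵ_ω` (for example `η = ℵ_ω`) and every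
cardinal `ι`, the relation `(ℵ_{ω+1}, η, ℵ_ω) → ι` holds if and only if `ι ≤ ℵ_ω`. -/
theorem result :
    (∀ l : Cardinal.{u}, l.IsStrongLimit → ℵ₀ < l → l.ord.cof = ℵ₀ → ∀ η ι : Cardinal.{u},
      η ≤ l → ι ≤ l → Arrow (Order.succ l) η l ι) ∧
    (∀ l : Cardinal.{u}, (2 : Cardinal.{u}) ^ (ℵ₀ : Cardinal.{u}) < l →
      (2 : Cardinal.{u}) ^ l = Order.succ l → ∀ η ι : Cardinal.{u},
        (2 : Cardinal.{u}) ^ (ℵ₀ : Cardinal.{u}) < η → l < ι → ¬ Arrow (Order.succ l) η l ι) ∧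
    (∀ l : Cardinal.{u}, l.IsStrongLimit → l.ord.cof = ℵ₀ →
      (2 : Cardinal.{u}) ^ l = Order.succ l → ∀ η ι : Cardinal.{u},
        (2 : Cardinal.{u}) ^ (ℵ₀ : Cardinal.{u}) < η → η ≤ l →
          (Arrow (Order.succ l) η l ι ↔ ι ≤ l)) ∧
    (GCH.{u} → ∀ η ι : Cardinal.{u}, ℵ_ 2 ≤ η → η ≤ ℵ_ ω →
      (Arrow (ℵ_ (ω + 1)) η (ℵ_ ω) ι ↔ ι ≤ ℵ_ ω)) := by
  have h3 : ∀ l : Cardinal.{u}, l.IsStrongLimit → l.ord.cof = ℵ₀ →
      (2 : Cardinal.{u}) ^ l = Order.succ l → ∀ η ι : Cardinal.{u},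
        (2 : Cardinal.{u}) ^ (ℵ₀ : Cardinal.{u}) < η → η ≤ l →
          (Arrow (Order.succ l) η l ι ↔ ι ≤ l) := by
    intro l hl hcof h2l η ι hη hηl
    have hl2 : (2 : Cardinal.{u}) ^ (ℵ₀ : Cardinal.{u}) < l := hη.trans_le hηl
    refine ⟨fun h => ?_, fun h => pos hl ((cantor ℵ₀).trans hl2) hcof hηl h⟩
    by_contra hcon
    exact neg hl2 h2l hη (not_le.1 hcon) h
  refine ⟨fun l hl hl1 hcof η ι hη hι => pos hl hl1 hcof hη hι,
    fun l hl h2l η ι hη hι => neg hl h2l hη hι, h3, fun hGCH η ι hη hη' => ?_⟩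
  have hsucc : (ℵ_ (ω + 1) : Cardinal.{u}) = Order.succ (ℵ_ ω) := by
    rw [← aleph_succ, Ordinal.add_one_eq_succ]
  have hlt : ∀ x : Cardinal.{u}, x < ℵ_ ω → (2 : Cardinal.{u}) ^ x < ℵ_ ω := by
    have hfin : ∀ n : ℕ, (2 : Cardinal.{u}) ^ (ℵ_ (n : Ordinal.{u})) < ℵ_ ω := by
      intro n
      rw [hGCH _ (aleph0_le_aleph _), ← aleph_succ]
      refine aleph_lt_aleph.2 ?_
      have h1 : Order.succ (n : Ordinal.{u}) = ((n + 1 : ℕ) : Ordinal.{u}) := by
        rw [← Ordinal.add_one_eq_succ]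
        push_cast
        rfl
      rw [h1]
      exact nat_lt_omega0 _
    intro x hx
    rcases lt_or_ge x ℵ₀ with h | h
    · refine (power_le_power_left two_ne_zero h.le).trans_lt ?_
      have := hfin 0
      rwa [Nat.cast_zero, aleph_zero] at this
    · obtain ⟨o, rfl⟩ := mem_range_aleph_iff.2 h
      obtain ⟨n, rfl⟩ := Ordinal.lt_omega0.1 (aleph_lt_aleph.1 hx)
      exact hfin n
  rw [hsucc]
  refine h3 (ℵ_ ω) ⟨(aleph0_pos.trans_le (aleph0_le_aleph _)).ne', hlt⟩ ?_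
    (hGCH _ (aleph0_le_aleph _)) η ι ?_ hη'
  · rw [ord_aleph, Ordinal.cof_map_of_isNormal Ordinal.isNormal_omega Ordinal.isSuccLimit_omega0,
      Ordinal.cof_omega0]
  · rw [hGCH _ le_rfl]
    refine lt_of_lt_of_le ?_ hη
    rw [← aleph_zero, ← aleph_succ]
    exact aleph_lt_aleph.2 (by norm_num)

end Pool.Agent.Results.MP_5fddfa_lc.ExactThreshold
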